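import Pool.Agent.LFZ.OneRel

/-!
# MP_08a057_al : residual finiteness of finitely presented groups with a finite index subgroup
which is (locally free)-by-Z; in particular of all one-relator groups with locally free derived
group and first Betti number at most one.
-/

set_option autoImplicit false

namespace Pool.Agent.Results.MP_08a057_al.LocallyFreeByZ

open Pool.Agent.LFZ

theorem finrank_le_one (r : FreeGroup (Fin 2)) (hr : r ∉ commutator (FreeGroup (Fin 2))) :
    Module.finrank ℤ (Additive (Abelianization
      (PresentedGroup ({r} : Set (FreeGroup (Fin 2)))))) ≤ 1 := by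
  let M' := Additive (Abelianization (FreeGroup (Fin 2)))
  let G := PresentedGroup ({r} : Set (FreeGroup (Fin 2)))
  let e : M' ≃+ (Fin 2 →₀ ℤ) := FreeAbelianGroup.equivFinsupp (Fin 2)
  let eL : M' ≃ₗ[ℤ] (Fin 2 →₀ ℤ) := e.toIntLinearEquiv
  haveI : Module.Finite ℤ M' := Module.Finite.equiv eL.symm
  haveI : Module.Free ℤ M' := Module.Free.of_equiv eL.symm
  have h2 : Module.finrank ℤ M' = 2 := by
    rw [eL.finrank_eq, Module.finrank_finsupp_self, Fintype.card_fin]
  let f : M' →+ Additive (Abelianization G) :=
    MonoidHom.toAdditive (Abelianization.map (PresentedGroup.mk ({r} : Set (FreeGroup (Fin 2)))))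
  let fL : M' →ₗ[ℤ] Additive (Abelianization G) := f.toIntLinearMap
  have hf : Function.Surjective fL := by
    intro y
    obtain ⟨g, hg⟩ := QuotientGroup.mk_surjective (s := commutator G) (Additive.toMul y)
    obtain ⟨w, hw⟩ := PresentedGroup.mk_surjective ({r} : Set (FreeGroup (Fin 2))) g
    refine ⟨Additive.ofMul (Abelianization.of w), ?_⟩
    change Additive.ofMul (Abelianization.map (PresentedGroup.mk ({r} : Set (FreeGroup (Fin 2))))
      (Abelianization.of w)) = y
    rw [Abelianization.map_of, hw]
    exact congrArg Additive.ofMul hg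
  let x : M' := Additive.ofMul (Abelianization.of r)
  have hx0 : x ≠ 0 := by
    intro h0
    apply hr
    rw [← Abelianization.ker_of]
    exact congrArg Additive.toMul h0
  have hxk : x ∈ LinearMap.ker fL := by
    rw [LinearMap.mem_ker]
    change Additive.ofMul (Abelianization.map (PresentedGroup.mk ({r} : Set (FreeGroup (Fin 2))))
      (Abelianization.of r)) = 0
    rw [Abelianization.map_of, PresentedGroup.one_of_mem (Set.mem_singleton r), map_one]
    rfl
  have hk : 1 ≤ Module.finrank ℤ (LinearMap.ker fL) := by
    haveI : Nontrivial (LinearMap.ker fL) :=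
      ⟨⟨⟨x, hxk⟩, 0, fun h => hx0 (congrArg Subtype.val h)⟩⟩
    exact Module.finrank_pos
  have h3 := (LinearMap.ker fL).finrank_quotient_add_finrank
  have h4 : Module.finrank ℤ (M' ⧸ LinearMap.ker fL) =
      Module.finrank ℤ (Additive (Abelianization G)) :=
    (fL.quotKerEquivOfSurjective hf).finrank_eq
  rw [h2, h4] at h3
  change Module.finrank ℤ (Additive (Abelianization G)) ≤ 1
  omega

/-- (1) A finitely presented group having a finite index subgroup which maps onto `ℤ` with locally
free kernel is residually finite. (2) A finitely presented group with locally free derived group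
and first Betti number at most one is residually finite. (3) In particular every two-generator
one-relator group with locally free derived group whose relator is not in the commutator
subgroup of the free group is residually finite. -/
theorem result :
    (∀ (n : ℕ) (R : Set (FreeGroup (Fin n))), R.Finite →
      ∀ H : Subgroup (PresentedGroup R), H.index ≠ 0 →
      ∀ χ : H →* Multiplicative ℤ, Function.Surjective χ →
      (∀ K : Subgroup H, K ≤ χ.ker → K.FG → IsFreeGroup K) →
      ∀ g : PresentedGroup R, g ≠ 1 →
        ∃ N : Subgroup (PresentedGroup R), N.Normal ∧ N.index ≠ 0 ∧ g ∉ N) ∧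
    (∀ (n : ℕ) (R : Set (FreeGroup (Fin n))), R.Finite →
      (∀ K : Subgroup (PresentedGroup R), K ≤ commutator (PresentedGroup R) → K.FG →
        IsFreeGroup K) →
      Module.finrank ℤ (Additive (Abelianization (PresentedGroup R))) ≤ 1 →
      ∀ g : PresentedGroup R, g ≠ 1 →
        ∃ N : Subgroup (PresentedGroup R), N.Normal ∧ N.index ≠ 0 ∧ g ∉ N) ∧
    (∀ r : FreeGroup (Fin 2), r ∉ commutator (FreeGroup (Fin 2)) →
      (∀ K : Subgroup (PresentedGroup ({r} : Set (FreeGroup (Fin 2)))),
        K ≤ commutator (PresentedGroup ({r} : Set (FreeGroup (Fin 2)))) → K.FG →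
        IsFreeGroup K) →
      ∀ g : PresentedGroup ({r} : Set (FreeGroup (Fin 2))), g ≠ 1 →
        ∃ N : Subgroup (PresentedGroup ({r} : Set (FreeGroup (Fin 2)))),
          N.Normal ∧ N.index ≠ 0 ∧ g ∉ N) := by
  refine ⟨?_, ?_, ?_⟩
  · intro n R hR H hH χ hχ hN
    haveI : H.FiniteIndex := ⟨hH⟩
    obtain ⟨m, π', R', hπ', hR', hker'⟩ := fp_of_finiteIndex (PresentedGroup.mk R)
      (PresentedGroup.mk_surjective R) R hR (QuotientGroup.ker_mk' _) H
    exact RF.of_subgroup H (rf_of_fp π' hπ' R' hR' hker' χ hχ hN)
  · intro n R hR hN hb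
    exact rf_of_rank_le_one R hR hN hb
  · intro r hr hN
    exact rf_of_rank_le_one _ (Set.finite_singleton r) hN (finrank_le_one r hr)

end Pool.Agent.Results.MP_08a057_al.LocallyFreeByZ
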